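import Pool.Agent.helper84.LP.SpecG

/-!
# Project LP, row lp:WCO: covering of a later window
-/

open scoped MatrixGroups ContDiff Topology UpperHalfPlane ComplexConjugate
open UpperHalfPlane MeasureTheory Filter Set

set_option autoImplicit false

namespace Pool.Agent.LP

open Pool.Agent.RS
open Pool.Agent.MS (bq BB BA SF pf)
open Pool.Agent.HV (FW)
open Pool.Agent.EN (XG MG mkX mkM fl pr)
open Pool.Agent.ER (Low LowJ)

/-- the points of `E` which the flow moves out of `B` -/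
theorem WCO_mass (hXFL : EN.XFL_stmt) {Γ : Subgroup SL(2, ℝ)} {μ : Measure (XG Γ)} (hμ : IsProbabilityMeasure μ)
    (hinv : ∀ t, μ.map (fl Γ t) = μ) (E B : Set (XG Γ)) (σ : ℝ) : μ.real (E \ (fl Γ σ) ⁻¹' B) ≤ μ.real (E \ (fl Γ σ) ⁻¹' E) + μ.real (E \ B) := by
  obtain ⟨hfl, -⟩ := hXFL Γ
  have hc : Continuous (fl Γ σ) := hfl.cont.comp (continuous_const.prodMk continuous_id)
  have hm : Measurable (fl Γ σ) := hc.measurable
  have h1 : E \ (fl Γ σ) ⁻¹' B ⊆ (E \ (fl Γ σ) ⁻¹' E) ∪ (fl Γ σ) ⁻¹' (E \ B) := by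
    intro x hx
    by_cases h : fl Γ σ x ∈ E
    · exact Or.inr ⟨h, hx.2⟩
    · exact Or.inl ⟨hx.1, h⟩
  have h2 : μ (fl Γ σ ⁻¹' (E \ B)) ≤ μ (E \ B) := by
    have h3 := Measure.le_map_apply (μ := μ) hm.aemeasurable (E \ B)
    rwa [hinv σ] at h3
  calc μ.real (E \ (fl Γ σ) ⁻¹' B) ≤ μ.real ((E \ (fl Γ σ) ⁻¹' E) ∪ (fl Γ σ) ⁻¹' (E \ B)) := measureReal_mono h1
    _ ≤ μ.real (E \ (fl Γ σ) ⁻¹' E) + μ.real ((fl Γ σ) ⁻¹' (E \ B)) := measureReal_union_le _ _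
    _ ≤ μ.real (E \ (fl Γ σ) ⁻¹' E) + μ.real (E \ B) := add_le_add le_rfl (ENNReal.toReal_mono (measure_ne_top _ _) h2)

theorem WCO_proof (hXFL : EN.XFL_stmt) : WCO_stmt := by
  intro Γ μ E ρ hΓ hμ hinv hCO a η δ ha hη hδ
  have h0 := hCO.1
  obtain ⟨n0, hn0⟩ := hCO.2 a η δ ha hη hδ
  refine ⟨n0, fun n hn => ?_⟩
  obtain ⟨A, hA, hm⟩ := hn0 n hn
  refine ⟨A, hA, fun s => ?_⟩
  have h1 := WCO_mass hXFL hμ hinv E (IR.BX Γ A a n) (s : ℝ)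
  have h2 := h0 s
  rw [h2, zero_add] at h1
  exact h1.trans hm

end Pool.Agent.LP
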